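import Pool.Agent.Lib.MP_4fbe7c_an.WH.Iface

/-!
Project WH (MP_4fbe7c_an), module REG (helper74): the bounds `Reg` hold eventually.
-/

set_option autoImplicit false

open Set

namespace Pool.Agent.Lib.MP_4fbe7c_an.WH.H74

open Pool.Agent.Lib.MP_4fbe7c_an.SD Pool.Agent.Lib.MP_4fbe7c_an.FC Pool.Agent.Lib.MP_4fbe7c_an.WH

theorem mem_PS {L : ℝ} {N : ℕ} {u : Fin N → ℝ → ℝ → ℝ} {k : Fin N} :
    k ∈ PS L u ↔ Pres L u k := by
  classical
  unfold PS
  rw [Finset.mem_filter]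
  exact ⟨fun h => h.2, fun h => ⟨Finset.mem_univ _, h⟩⟩

/-- **REG** -/
theorem reg (hOsc : OscStatement) (hYu : YBuStatement) (hYs : YSmStatement)
    (hMass : MassStatement) (hLse : LseStatement) : RegStatement := by
  intro L b a hL hb ha
  obtain ⟨K, hK, hYK⟩ := hYu L (2 * b) a ha
  obtain ⟨Cy, hCy, hYC⟩ := hYs L b a hL hb ha
  have hκ : 0 < 1 + L * K := by positivity
  refine ⟨1 + L * K, Cy, hκ, hCy, ?_⟩
  intro ε m μ N d u v w hC hW hex had
  -- the bounds of `yy`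
  have hYS : ∀ k : Fin N, ∃ T : ℝ, 0 < T ∧ (k ∈ PS L u → ∀ t, T ≤ t → yy L u v k t ≤ K) := by
    intro k
    by_cases hk : k ∈ PS L u
    · have hp : Pres L u k := mem_PS.1 hk
      obtain ⟨T, hT0, h1⟩ := hYK m N d u v w k hC (had k hp) hp
      exact ⟨T, hT0, fun _ => h1⟩
    · exact ⟨1, one_pos, fun h => absurd h hk⟩
  choose τ hτ0 hτ using hYS
  have hτle : ∀ k, τ k ≤ ∑ i, τ i := fun k =>
    Finset.single_le_sum (fun i _ => (hτ0 i).le) (Finset.mem_univ k)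
  obtain ⟨T₁, hT₁, hy₁⟩ := hYC ε m μ N d u v w hC hW hex had
  obtain ⟨hmass0, T₂, hT₂, hmass⟩ := hMass L (2 * b) m N d u v w hC
  obtain ⟨T, hTdef⟩ : ∃ T : ℝ, T = max (max T₁ T₂) (∑ i, τ i) := ⟨_, rfl⟩
  have hT1 : T₁ ≤ T := by rw [hTdef]; exact (le_max_left _ _).trans (le_max_left _ _)
  have hT2 : T₂ ≤ T := by rw [hTdef]; exact (le_max_right _ _).trans (le_max_left _ _)
  have hT3 : (∑ i, τ i) ≤ T := by rw [hTdef]; exact le_max_right _ _
  have hT0 : 0 < T := lt_of_lt_of_le hT₁ hT1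
  refine ⟨T, hT0, fun t ht => ?_⟩
  have ht0 : 0 < t := lt_of_lt_of_le hT0 ht
  have hPp : ∀ k ∈ PS L u, Pres L u k := fun k hk => mem_PS.1 hk
  have hne : (PS L u).Nonempty := by
    obtain ⟨k, hk⟩ := hex
    exact ⟨k, mem_PS.2 hk⟩
  -- oscillation
  have hosc : ∀ k ∈ PS L u, ∀ x ∈ Icc 0 L,
      |Real.log (u k t x) - lg L u k t / L| ≤ 1 + L * K ∧
        (Real.log (u k t x) - lg L u k t / L) ^ 2 ≤ L * yy L u v k t := by
    intro k hk x hx
    have hp := hPp k hk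
    have hcv : ContinuousOn (v k t) (Icc 0 L) := by
      have h1 := hC.sol.cv k
      have h2 : ContinuousOn (fun x : ℝ => ((t, x) : ℝ × ℝ)) (Icc 0 L) := by fun_prop
      exact h1.comp h2 fun x hx => ⟨mem_Ioi.2 ht0, hx⟩
    have h := hOsc L K (u k t) (v k t) hL hK.le (hC.sol.dx k t ht0) hcv
      (fun x hx => hp t ht0 x hx) (hτ k hk t ((hτle k).trans (hT3.trans ht)))
    exact h.1 x hx
  have hlse := (hLse L (2 * b) m N d u v w (PS L u) hC hne hPp t ht0).1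
  refine ⟨fun k hk => hy₁ t (hT1.trans ht) k hk, ?_, ?_, fun k hk x hx => (hosc k hk x hx).1,
    fun k hk x hx => (hosc k hk x hx).2, ?_⟩
  · intro k hk x hx
    have hpos := hPp k hk t ht0 x hx
    have h1 := (abs_le.1 (hosc k hk x hx).1).1
    unfold gm
    rw [← Real.exp_add, ← Real.le_log_iff_exp_le hpos]
    linarith
  · intro k hk x hx
    have hpos := hPp k hk t ht0 x hx
    have h1 := (abs_le.1 (hosc k hk x hx).1).2
    unfold gm
    rw [← Real.exp_add, ← Real.log_le_iff_le_exp hpos]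
    linarith
  · have h1 := (hmass t (hT2.trans ht)).1
    have h2 : L * Wg L u t ≤ L * (4 * b) := by
      have h3 : L * Wg L u t ≤ mass L u t := hlse
      linarith
    exact le_of_mul_le_mul_left h2 hL

end Pool.Agent.Lib.MP_4fbe7c_an.WH.H74
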